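import Pool.Agent.Lib.MP_5e7226_co.TG.Cyc

set_option autoImplicit false

/-! Row F1: from a finite irreducible group of linear maps of `E^3` to a group of rotations of `ℝ³`
without invariant line. -/

namespace Pool.Agent.Lib.MP_5e7226_co.TG

open Matrix

open scoped MatrixOrder in
theorem exists_sqrt {P : Matrix (Fin 3) (Fin 3) ℝ} (h : P.PosSemidef) :
    ∃ B : Matrix (Fin 3) (Fin 3) ℝ, P = Bᴴ * B := by
  obtain ⟨B, hB⟩ := CStarAlgebra.nonneg_iff_eq_star_mul_self.mp h.nonneg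
  exact ⟨B, hB⟩

theorem exists_T (W : Subgroup (EuclideanSpace ℝ (Fin 3) ≃ₗ[ℝ] EuclideanSpace ℝ (Fin 3))) [Finite W] :
    ∃ T : EuclideanSpace ℝ (Fin 3) ≃ₗ[ℝ] V3, ∀ (g : W) (x y : EuclideanSpace ℝ (Fin 3)),
      T (g • x) ⬝ᵥ T (g • y) = T x ⬝ᵥ T y := by
  classical
  haveI := Fintype.ofFinite W
  let L : EuclideanSpace ℝ (Fin 3) ≃ₗ[ℝ] V3 := WithLp.linearEquiv 2 ℝ (Fin 3 → ℝ)
  let A : W → (V3 →ₗ[ℝ] V3) := fun g =>
    L.toLinearMap ∘ₗ (g : EuclideanSpace ℝ (Fin 3) ≃ₗ[ℝ] EuclideanSpace ℝ (Fin 3)).toLinearMap ∘ₗ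
      L.symm.toLinearMap
  have hA : ∀ g v, A g v = L (g • L.symm v) := fun g v => rfl
  let M : W → Matrix (Fin 3) (Fin 3) ℝ := fun g => LinearMap.toMatrix' (A g)
  have hM : ∀ g v, M g *ᵥ v = A g v := fun g v => LinearMap.toMatrix'_mulVec (A g) v
  obtain ⟨B, hB⟩ := exists_sqrt (P := ∑ g, (M g)ᴴ * M g)
    (Matrix.posSemidef_sum _ fun g _ => Matrix.posSemidef_conjTranspose_mul_self (M g))
  have hq : ∀ (C : Matrix (Fin 3) (Fin 3) ℝ) (x y : V3),
      (C *ᵥ x) ⬝ᵥ (C *ᵥ y) = x ⬝ᵥ ((Cᴴ * C) *ᵥ y) := by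
    intro C x y
    rw [← mulVec_mulVec, dotProduct_mulVec x, conjTranspose_eq_transpose_of_trivial, vecMul_transpose]
  have key : ∀ x y : V3, (B *ᵥ x) ⬝ᵥ (B *ᵥ y) = ∑ g, A g x ⬝ᵥ A g y := by
    intro x y
    rw [hq, ← hB, Matrix.sum_mulVec, dotProduct_sum]
    refine Finset.sum_congr rfl fun g _ => ?_
    rw [← hq, hM, hM]
  have hinj : Function.Injective (Matrix.toLin' B) := by
    refine (injective_iff_map_eq_zero _).2 fun x hx => ?_
    have h1 : B *ᵥ x = 0 := by simpa using hx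
    have h2 := key x x
    rw [h1, zero_dotProduct] at h2
    have h3 : ∀ g ∈ (Finset.univ : Finset W), 0 ≤ A g x ⬝ᵥ A g x := fun g _ =>
      Finset.sum_nonneg fun i _ => mul_self_nonneg (A g x i)
    have h4 := (Finset.sum_eq_zero_iff_of_nonneg h3).1 h2.symm 1 (Finset.mem_univ _)
    have h5 : A 1 x = x := by rw [hA, one_smul, L.apply_symm_apply]
    rw [h5] at h4
    exact dotProduct_self_eq_zero.1 h4
  refine ⟨L.trans (LinearEquiv.ofInjectiveEndo (Matrix.toLin' B) hinj), fun h x y => ?_⟩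
  have hT : ∀ x, (L.trans (LinearEquiv.ofInjectiveEndo (Matrix.toLin' B) hinj)) x = B *ᵥ (L x) :=
    fun x => rfl
  have h6 : ∀ x y, (B *ᵥ (L x)) ⬝ᵥ (B *ᵥ (L y)) = ∑ g : W, L (g • x) ⬝ᵥ L (g • y) := by
    intro x y
    rw [key]
    refine Finset.sum_congr rfl fun g _ => ?_
    rw [hA, hA, L.symm_apply_apply, L.symm_apply_apply]
  rw [hT, hT, hT, hT, h6, h6]
  refine Fintype.sum_equiv (Equiv.mulRight h) _ _ fun g => ?_
  simp only [Equiv.coe_mulRight, mul_smul]

variable {R : V3 →ₗ[ℝ] V3}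

theorem orth_surj (h : ∀ x y, R x ⬝ᵥ R y = x ⬝ᵥ y) : Function.Surjective R := by
  refine LinearMap.injective_iff_surjective.1 ((injective_iff_map_eq_zero _).2 fun x hx => ?_)
  have h1 := h x x
  rw [hx, zero_dotProduct] at h1
  exact dotProduct_self_eq_zero.1 h1.symm

theorem orth_matrix (h : ∀ x y, R x ⬝ᵥ R y = x ⬝ᵥ y) :
    (LinearMap.toMatrix' R)ᵀ * LinearMap.toMatrix' R = 1 := by
  ext i j
  rw [Matrix.mul_apply]
  have h1 := h (Pi.single i 1) (Pi.single j 1)
  simp only [Matrix.transpose_apply, LinearMap.toMatrix'_apply]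
  have h2 : ∀ k, (fun j' => if j' = k then (1 : ℝ) else 0) = (Pi.single k 1 : V3) := by
    intro k; funext j'; simp [Pi.single_apply]
  simp only [dotProduct] at h1
  simp only [Matrix.one_apply]
  first
    | (rw [h1]; simp [Pi.single_apply, Finset.sum_ite_eq, eq_comm])
    | (simp only [h2]; rw [h1]; simp [Pi.single_apply, Finset.sum_ite_eq, eq_comm])

theorem orth_cross (h : ∀ x y, R x ⬝ᵥ R y = x ⬝ᵥ y) (hd : LinearMap.det R = 1) (x y : V3) :
    R (x ⨯₃ y) = R x ⨯₃ R y := by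
  have h1 : ∀ z, R z ⬝ᵥ (R x ⨯₃ R y) = R z ⬝ᵥ R (x ⨯₃ y) := by
    intro z
    rw [h, triple_product_eq_det, triple_product_eq_det]
    have h2 : Matrix.of ![R z, R x, R y] =
        Matrix.of ![z, x, y] * (LinearMap.toMatrix' R)ᵀ := by
      have h3 : ∀ v : V3, ∀ j, R v j = ∑ k, v k * LinearMap.toMatrix' R j k := by
        intro v j
        conv_lhs => rw [← LinearMap.toMatrix'_mulVec R v]
        simp only [Matrix.mulVec, dotProduct]
        exact Finset.sum_congr rfl fun k _ => mul_comm _ _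
      ext i j
      rw [Matrix.mul_apply]
      fin_cases i
      · exact h3 z j
      · exact h3 x j
      · exact h3 y j
    have h7 := congrArg Matrix.det h2
    rw [Matrix.det_mul, Matrix.det_transpose, LinearMap.det_toMatrix', hd, mul_one] at h7
    exact h7
  have h4 : R (x ⨯₃ y) - R x ⨯₃ R y = 0 := by
    obtain ⟨z, hz⟩ := orth_surj h (R (x ⨯₃ y) - R x ⨯₃ R y)
    have h5 := h1 z
    rw [hz] at h5
    refine dotProduct_self_eq_zero.1 ?_
    rw [dotProduct_sub, h5, sub_self]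
  exact sub_eq_zero.1 h4

theorem orth_fix (h : ∀ x y, R x ⬝ᵥ R y = x ⬝ᵥ y) (hd : LinearMap.det R = 1) :
    ∃ v, v ≠ 0 ∧ R v = v := by
  set A := LinearMap.toMatrix' R with hAdef
  have h1 : Aᵀ * A = 1 := orth_matrix h
  have h2 : A * Aᵀ = 1 := mul_eq_one_comm.1 h1
  have h3 : A - 1 = (-A) * (A - 1)ᵀ := by
    rw [Matrix.transpose_sub, Matrix.mul_sub, Matrix.neg_mul, h2, Matrix.transpose_one, Matrix.mul_one]
    abel
  have h4 : (A - 1).det = 0 := by
    have h5 := congrArg Matrix.det h3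
    rw [Matrix.det_mul, Matrix.det_transpose, Matrix.det_neg, Fintype.card_fin, hAdef,
      LinearMap.det_toMatrix', hd] at h5
    norm_num at h5
    rw [← hAdef] at h5
    linarith
  obtain ⟨v, hv, h6⟩ := Matrix.exists_mulVec_eq_zero_iff.2 h4
  refine ⟨v, hv, ?_⟩
  rw [Matrix.sub_mulVec, Matrix.one_mulVec, hAdef, LinearMap.toMatrix'_mulVec, sub_eq_zero] at h6
  exact h6

theorem exists_act {W : Subgroup (EuclideanSpace ℝ (Fin 3) ≃ₗ[ℝ] EuclideanSpace ℝ (Fin 3))} [Finite W]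
    (hirr : ∀ p : Submodule ℝ (EuclideanSpace ℝ (Fin 3)), (∀ g ∈ W, ∀ x ∈ p, g x ∈ p) → p = ⊥ ∨ p = ⊤) :
    ∃ (G : Subgroup W) (T : EuclideanSpace ℝ (Fin 3) ≃ₗ[ℝ] V3) (a : G → V3 →ₗ[ℝ] V3),
      (∀ (g : G) (v : V3), a g v = T ((g : W) • T.symm v)) ∧ Act a := by
  classical
  obtain ⟨T, hT⟩ := exists_T W
  let D : W →* ℝˣ := LinearEquiv.det.comp W.subtype
  let r : W → (V3 →ₗ[ℝ] V3) := fun g =>
    T.toLinearMap ∘ₗ (g : EuclideanSpace ℝ (Fin 3) ≃ₗ[ℝ] EuclideanSpace ℝ (Fin 3)).toLinearMap ∘ₗ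
      T.symm.toLinearMap
  have hr : ∀ g v, r g v = T (g • T.symm v) := fun g v => rfl
  have hrd : ∀ g, LinearMap.det (r g) = (D g : ℝ) := by
    intro g
    have h1 : (D g : ℝ) = LinearMap.det
        (g : EuclideanSpace ℝ (Fin 3) ≃ₗ[ℝ] EuclideanSpace ℝ (Fin 3)).toLinearMap :=
      LinearEquiv.coe_det _
    rw [h1]
    exact LinearMap.det_conj
      (g : EuclideanSpace ℝ (Fin 3) ≃ₗ[ℝ] EuclideanSpace ℝ (Fin 3)).toLinearMap T
  have hro : ∀ g x y, r g x ⬝ᵥ r g y = x ⬝ᵥ y := by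
    intro g x y
    rw [hr, hr, hT, T.apply_symm_apply, T.apply_symm_apply]
  have hD2 : ∀ g, D g = 1 ∨ D g = -1 := by
    intro g
    have h1 := congrArg Matrix.det (orth_matrix (hro g))
    rw [Matrix.det_mul, Matrix.det_transpose, LinearMap.det_toMatrix', hrd, Matrix.det_one] at h1
    rcases mul_self_eq_one_iff.1 h1 with h2 | h2
    · exact Or.inl (Units.ext h2)
    · exact Or.inr (Units.ext (by simpa using h2))
  refine ⟨D.ker, T, fun g => r g, fun g v => rfl, ?_⟩
  have hdet : ∀ g : D.ker, LinearMap.det (r g) = 1 := by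
    intro g
    rw [hrd, MonoidHom.mem_ker.1 g.2, Units.val_one]
  refine ⟨fun v => ?_, fun g h v => ?_, fun g x y => hro _ x y, fun g x y =>
    orth_cross (hro _) (hdet g) x y, fun g => orth_fix (hro _) (hdet g), fun g hg => ?_, ?_⟩
  · show T ((1 : W) • T.symm v) = v
    rw [one_smul, T.apply_symm_apply]
  · show T (((g : W) * (h : W)) • T.symm v) = T ((g : W) • T.symm (T ((h : W) • T.symm v)))
    rw [T.symm_apply_apply, mul_smul]
  · apply Subtype.ext
    apply Subtype.ext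
    ext1 x
    have h1 := hg (T x)
    change T ((g : W) • T.symm (T x)) = T x at h1
    rw [T.symm_apply_apply] at h1
    exact T.injective h1
  · intro v hv
    by_contra hcon
    push Not at hcon
    set x := T.symm v with hx
    have hx0 : x ≠ 0 := by
      intro h0
      apply hv
      rw [hx] at h0
      simpa using h0
    have h1 : ∀ g : W, D g = 1 → ∃ c : ℝ, g • x = c • x := by
      intro g hg
      obtain ⟨c, hc⟩ := hcon ⟨g, MonoidHom.mem_ker.2 hg⟩
      refine ⟨c, T.injective ?_⟩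
      rw [map_smul T c x, hx, T.apply_symm_apply]
      exact hc
    -- an element moving the line
    have h2 : ∃ t : W, t • x ∉ Submodule.span ℝ {x} := by
      by_contra hall
      push Not at hall
      rcases hirr (Submodule.span ℝ {x}) (fun g hg y hy => by
        obtain ⟨c, rfl⟩ := Submodule.mem_span_singleton.1 hy
        rw [map_smul g c x]
        exact Submodule.smul_mem _ _ (hall ⟨g, hg⟩)) with h | h
      · exact hx0 (Submodule.span_singleton_eq_bot.1 h)
      · have h3 : Module.finrank ℝ (Submodule.span ℝ {x}) = 1 := finrank_span_singleton hx0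
        rw [h, finrank_top] at h3
        simp at h3
    obtain ⟨t, ht⟩ := h2
    have hDt : D t = -1 := by
      rcases hD2 t with h | h
      · obtain ⟨c, hc⟩ := h1 t h
        exact absurd (hc ▸ Submodule.smul_mem _ _ (Submodule.mem_span_singleton_self x)) ht
      · exact h
    set q := Submodule.span ℝ {x, t • x} with hq
    have hxq : x ∈ q := Submodule.subset_span (by simp)
    have htq : t • x ∈ q := Submodule.subset_span (by simp)
    have h4 : ∀ h : W, h • x ∈ q := by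
      intro h
      rcases hD2 h with h5 | h5
      · obtain ⟨c, hc⟩ := h1 h h5
        rw [hc]
        exact Submodule.smul_mem _ _ hxq
      · have h6 : D (t⁻¹ * h) = 1 := by rw [map_mul, map_inv, hDt, h5]; simp
        obtain ⟨c, hc⟩ := h1 _ h6
        have h7 : h • x = c • (t • x) := by
          have h8 : h • x = t • ((t⁻¹ * h) • x) := by rw [← mul_smul, mul_inv_cancel_left]
          rw [h8, hc]
          exact map_smul (t : EuclideanSpace ℝ (Fin 3) ≃ₗ[ℝ] EuclideanSpace ℝ (Fin 3)) c x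
        rw [h7]
        exact Submodule.smul_mem _ _ htq
    have h9 : ∀ g ∈ W, ∀ y ∈ q, g y ∈ q := by
      intro g hg y hy
      rw [hq, Submodule.mem_span_pair] at hy
      obtain ⟨b, c, rfl⟩ := hy
      rw [map_add, map_smul, map_smul]
      refine Submodule.add_mem _ (Submodule.smul_mem _ _ (h4 ⟨g, hg⟩)) (Submodule.smul_mem _ _ ?_)
      have h10 := h4 (⟨g, hg⟩ * t)
      rw [mul_smul] at h10
      exact h10
    rcases hirr q h9 with h | h
    · rw [h, Submodule.mem_bot] at hxq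
      exact hx0 hxq
    · have h11 : Module.finrank ℝ q ≤ 2 := by
        have h12 := finrank_span_le_card (R := ℝ) ({x, t • x} : Set (EuclideanSpace ℝ (Fin 3)))
        refine h12.trans ?_
        simpa using Finset.card_le_two (a := x) (b := t • x)
      rw [h, finrank_top] at h11
      simp at h11

end Pool.Agent.Lib.MP_5e7226_co.TG
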