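import Pool.Agent.Lib.MP_5e7226_co.TG.Cyc

set_option autoImplicit false

namespace Pool.Agent.Lib.MP_5e7226_co.TG

open Matrix

/-- PROOF. `e i = T.symm (p, a c p, a c (a c p))`; `s`, `c s c⁻¹`, `c`. -/
theorem tetra_back {W : Subgroup (EuclideanSpace ℝ (Fin 3) ≃ₗ[ℝ] EuclideanSpace ℝ (Fin 3))}
    {G : Subgroup W} {T : EuclideanSpace ℝ (Fin 3) ≃ₗ[ℝ] V3} {a : G → V3 →ₗ[ℝ] V3}
    (ha : ∀ (g : G) (v : V3), a g v = T ((g : W) • T.symm v)) (hA : Act a) (hT : Tetra a) :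
    ∃ e : Module.Basis (Fin 3) ℝ (EuclideanSpace ℝ (Fin 3)),
      (∃ g ∈ W, g (e 0) = e 0 ∧ g (e 1) = -e 1 ∧ g (e 2) = -e 2) ∧
      (∃ g ∈ W, g (e 0) = -e 0 ∧ g (e 1) = e 1 ∧ g (e 2) = -e 2) ∧
      (∃ g ∈ W, g (e 0) = e 1 ∧ g (e 1) = e 2 ∧ g (e 2) = e 0) := by
  obtain ⟨p0, s, c, hs, h01, h02, h3⟩ := hT
  obtain ⟨p1, hp1⟩ : ∃ p1, p1 = a c p0 := ⟨_, rfl⟩
  obtain ⟨p2, hp2⟩ : ∃ p2, p2 = a c p1 := ⟨_, rfl⟩
  rw [← hp1] at h01 h02 h3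
  rw [← hp2] at h02 h3
  have d00 : p0 ⬝ᵥ p0 = 1 := hs.unit
  have d11 : p1 ⬝ᵥ p1 = 1 := by rw [hp1, hA.dot, d00]
  have d22 : p2 ⬝ᵥ p2 = 1 := by rw [hp2, hA.dot, d11]
  have h12 : p1 ⬝ᵥ p2 = 0 := by rw [hp2]; nth_rewrite 1 [hp1]; rw [hA.dot, h01]
  have h10 : p1 ⬝ᵥ p0 = 0 := by rw [dotProduct_comm, h01]
  have h20 : p2 ⬝ᵥ p0 = 0 := by rw [dotProduct_comm, h02]
  have h21 : p2 ⬝ᵥ p1 = 0 := by rw [dotProduct_comm, h12]
  have hli : LinearIndependent ℝ ![p0, p1, p2] := by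
    rw [Fintype.linearIndependent_iff]
    intro g hg
    rw [Fin.sum_univ_three] at hg
    have hg' : g 0 • p0 + g 1 • p1 + g 2 • p2 = 0 := hg
    have k : ∀ q : V3, g 0 * (q ⬝ᵥ p0) + g 1 * (q ⬝ᵥ p1) + g 2 * (q ⬝ᵥ p2) = 0 := by
      intro q
      have := congrArg (fun v => q ⬝ᵥ v) hg'
      simpa only [dotProduct_add, dotProduct_smul, smul_eq_mul, dotProduct_zero] using this
    have k0 := k p0
    have k1 := k p1
    have k2 := k p2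
    rw [d00, h01, h02] at k0
    rw [h10, d11, h12] at k1
    rw [h20, h21, d22] at k2
    intro i
    fin_cases i
    · show g 0 = 0; linarith
    · show g 1 = 0; linarith
    · show g 2 = 0; linarith
  have hcard : Fintype.card (Fin 3) = Module.finrank ℝ V3 := by simp
  let b : Module.Basis (Fin 3) ℝ V3 := basisOfLinearIndependentOfCardEqFinrank hli hcard
  have hb : ∀ i, b i = ![p0, p1, p2] i := fun i => by
    rw [coe_basisOfLinearIndependentOfCardEqFinrank]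
  let e : Module.Basis (Fin 3) ℝ (EuclideanSpace ℝ (Fin 3)) := b.map T.symm
  have he : ∀ i, e i = T.symm (![p0, p1, p2] i) := fun i => by
    rw [Module.Basis.map_apply, hb]
  have e0 : e 0 = T.symm p0 := he 0
  have e1 : e 1 = T.symm p1 := he 1
  have e2 : e 2 = T.symm p2 := he 2
  have act : ∀ (g : G) (v : V3),
      ((g : W) : EuclideanSpace ℝ (Fin 3) ≃ₗ[ℝ] EuclideanSpace ℝ (Fin 3)) (T.symm v) = T.symm (a g v) := by
    intro g v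
    rw [ha, LinearEquiv.symm_apply_apply]
    rfl
  have hs1 := hs.neg p1 h01
  have hs2 := hs.neg p2 h02
  have ht := hs.conj hA c
  rw [← hp1] at ht
  have ht0 := ht.neg p0 h10
  have ht2 := ht.neg p2 h12
  refine ⟨e, ⟨((s : W) : EuclideanSpace ℝ (Fin 3) ≃ₗ[ℝ] EuclideanSpace ℝ (Fin 3)), (s : W).2, ?_, ?_, ?_⟩,
    ⟨(((c * s * c⁻¹ : G) : W) : EuclideanSpace ℝ (Fin 3) ≃ₗ[ℝ] EuclideanSpace ℝ (Fin 3)), ((c * s * c⁻¹ : G) : W).2, ?_, ?_, ?_⟩,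
    ⟨((c : W) : EuclideanSpace ℝ (Fin 3) ≃ₗ[ℝ] EuclideanSpace ℝ (Fin 3)), (c : W).2, ?_, ?_, ?_⟩⟩
  · rw [e0, act, hs.fix]
  · rw [e1, act, hs1, map_neg]
  · rw [e2, act, hs2, map_neg]
  · rw [e0, act, ht0, map_neg]
  · rw [e1, act, ht.fix]
  · rw [e2, act, ht2, map_neg]
  · rw [e0, e1, act, ← hp1]
  · rw [e1, e2, act, ← hp2]
  · rw [e2, e0, act, h3]

end Pool.Agent.Lib.MP_5e7226_co.TG
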