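import Pool.Agent.Lib.MP_5e7226_co.TG.Main
import Pool.Agent.Lib.MP_5e7226_co.TG.F1
import Pool.Agent.Lib.MP_5e7226_co.TG.F2

set_option autoImplicit false

/-! A finite irreducible group of linear maps of `E^3` contains a tetrahedral rotation group. -/

namespace Pool.Agent.Lib.MP_5e7226_co.TG

theorem tetra {W : Subgroup (EuclideanSpace ℝ (Fin 3) ≃ₗ[ℝ] EuclideanSpace ℝ (Fin 3))} [Finite W]
    (hirr : ∀ p : Submodule ℝ (EuclideanSpace ℝ (Fin 3)), (∀ g ∈ W, ∀ x ∈ p, g x ∈ p) → p = ⊥ ∨ p = ⊤) :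
    ∃ e : Module.Basis (Fin 3) ℝ (EuclideanSpace ℝ (Fin 3)),
      (∃ g ∈ W, g (e 0) = e 0 ∧ g (e 1) = -e 1 ∧ g (e 2) = -e 2) ∧
      (∃ g ∈ W, g (e 0) = -e 0 ∧ g (e 1) = e 1 ∧ g (e 2) = -e 2) ∧
      (∃ g ∈ W, g (e 0) = e 1 ∧ g (e 1) = e 2 ∧ g (e 2) = e 0) := by
  obtain ⟨G, T, a, ha, hA⟩ := exists_act hirr
  exact tetra_back ha hA hA.tetra

end Pool.Agent.Lib.MP_5e7226_co.TG
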