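import Pool.Agent.Lib.MP_5e7226_co.TG.Cyc
import Pool.Agent.Lib.MP_5e7226_co.RG.TetC

set_option autoImplicit false

/-! Row D and the core theorem: a finite group of rotations without invariant line contains the
rotations of a tetrahedron. -/

namespace Pool.Agent.Lib.MP_5e7226_co.TG

open Matrix MulAction

variable {Γ : Type*} [Group Γ] {a : Γ → V3 →ₗ[ℝ] V3}

theorem ne_neg_self {v : V3} (h : v ⬝ᵥ v = 1) : v ≠ -v := by
  intro he
  have h2 : (2 : ℝ) • v = 0 := by
    rw [two_smul]; nth_rewrite 2 [he]; simp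
  exact ne_zero_of_unit h ((smul_eq_zero.1 h2).resolve_left two_ne_zero)

theorem eq_or_neg_of_decomp {x u : V3} {t : ℝ} (hx : x ⬝ᵥ x = 1) (hu : u ⬝ᵥ u = 1)
    (h : x = t • u) : x = u ∨ x = -u := by
  have h1 : t * t = 1 := by
    rw [h, smul_dotProduct, dotProduct_smul, hu] at hx
    simpa using hx
  rcases mul_self_eq_one_iff.1 h1 with h2 | h2
  · left; rw [h, h2, one_smul]
  · right; rw [h, h2, neg_one_smul]

/-- Row D (a), the main step. -/
theorem Act.step_a (h : Act a) {s : Γ} {p : V3} (hs : Half a s p)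
    (hst : ∀ t, a t p = p → t = 1 ∨ t = s) {k : Γ} {y z : V3} (hy : a k p = y) (hpy : p ⬝ᵥ y = 0)
    (hz : z ⬝ᵥ z = 1) (hpz : p ⬝ᵥ z = 0) (hyz : y ⬝ᵥ z = 0) :
    a k y = p ∨ a k y = -p ∨ a k y = z ∨ a k y = -z := by
  have hyy : y ⬝ᵥ y = 1 := by rw [← hy, h.dot]; exact hs.unit
  have hyp : y ⬝ᵥ p = 0 := by rw [dotProduct_comm]; exact hpy
  have Hg : Half a (k * s * k⁻¹) y := by rw [← hy]; exact hs.conj h k
  set gy := k * s * k⁻¹ with hgy
  have Hm : Half a (k * gy * k⁻¹) (a k y) := Hg.conj h k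
  set m := k * gy * k⁻¹ with hm
  have hky : a k y ⬝ᵥ y = 0 := by
    nth_rewrite 2 [← hy]
    rw [h.dot, hyp]
  have hmy : a m y = -y := Hm.neg y hky
  have hsy : a s y = -y := hs.neg y hpy
  have hs1 : s ≠ 1 := hs.ne_one h hyy hpy
  have hsm : a (s⁻¹ * m) y = y := by
    rw [h.mul, hmy, ← hsy, h.inv_left]
  have hfix : a (k⁻¹ * (s⁻¹ * m) * k) p = p := by
    rw [h.mul, hy, h.mul, hsm, ← hy, h.inv_left]
  have hm1 : m ≠ 1 := by
    intro he
    rw [he, h.one] at hmy
    exact ne_neg_self hyy hmy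
  rcases hst _ hfix with h1 | h1
  · have h2 : m = s := by
      have h3 : s⁻¹ * m = 1 := by
        have h4 : k * (k⁻¹ * (s⁻¹ * m) * k) * k⁻¹ = k * 1 * k⁻¹ := by rw [h1]
        simpa [mul_assoc] using h4
      exact (inv_mul_eq_one.1 h3).symm
    have h3 : a s (a k y) = a k y := by rw [← h2]; exact Hm.fix
    rcases h.unique hs1 hs.unit Hm.unit hs.fix h3 with h4 | h4
    · exact Or.inl h4
    · exact Or.inr (Or.inl h4)
  · have h2 : m = s * gy := by
      have h3 : s⁻¹ * m = gy := by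
        have h4 : k * (k⁻¹ * (s⁻¹ * m) * k) * k⁻¹ = k * s * k⁻¹ := by rw [h1]
        rw [hgy, ← h4]
        group
      rw [← h3]; group
    have hmz : a m z = z := by
      rw [h2, h.mul, Hg.neg z hyz, map_neg, hs.neg z hpz, neg_neg]
    rcases h.unique hm1 hz Hm.unit hmz Hm.fix with h4 | h4
    · exact Or.inr (Or.inr (Or.inl h4))
    · exact Or.inr (Or.inr (Or.inr h4))

/-- Row D (a). -/
theorem Act.case_a (h : Act a) {s : Γ} {p : V3} (hs : Half a s p)
    (hst : ∀ t, a t p = p → t = 1 ∨ t = s)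
    (horb : ∀ w : V3, w ⬝ᵥ w = 1 → (∃ g, g ≠ 1 ∧ g * g = 1 ∧ a g w = w) → ∃ k, a k p = w)
    (hneg : ∃ g, a g p = -p) : Tetra a := by
  obtain ⟨g, gp⟩ := hneg
  have hp := hs.unit
  obtain ⟨w, hpw, Hg⟩ := h.half_of_neg hp gp
  have hwp : w ⬝ᵥ p = 0 := by rw [dotProduct_comm]; exact hpw
  have hg1 : g ≠ 1 := Hg.ne_one h hp hwp
  obtain ⟨k, hk⟩ := horb w Hg.unit ⟨g, hg1, Hg.sq h hp hwp, Hg.fix⟩
  set u := p ⨯₃ w with hu
  have huu : u ⬝ᵥ u = 1 := cross_unit hp Hg.unit hpw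
  have hpu : p ⬝ᵥ u = 0 := dot_self_cross p w
  have hwu : w ⬝ᵥ u = 0 := dot_cross_self p w
  have huw : u ⬝ᵥ w = 0 := by rw [dotProduct_comm]; exact hwu
  have g'u : a (g * s) u = u := by
    rw [h.mul, hs.neg u hpu, map_neg, Hg.neg u hwu, neg_neg]
  have g'p : a (g * s) p = -p := by rw [h.mul, hs.fix, gp]
  obtain ⟨w', hpw', Hg'⟩ := h.half_of_neg hp g'p
  have hw'p : w' ⬝ᵥ p = 0 := by rw [dotProduct_comm]; exact hpw'
  obtain ⟨k', hk'⟩ := horb u huu ⟨g * s, Hg'.ne_one h hp hw'p, Hg'.sq h hp hw'p, g'u⟩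
  exact h.tetra_of_frame Hg.unit hpw hs hk (h.step_a hs hst hk hpw huu hpu hwu) hk'
    (h.step_a hs hst hk' hpu Hg.unit hpw huw)

/-- Row D (b). -/
theorem Act.case_b (h : Act a) [Finite Γ] {p : V3} (hp : p ⬝ᵥ p = 1)
    (hst : Set.ncard {t | a t p = p} = 4) (hO : Set.ncard {v | ∃ g, a g p = v} = 6)
    (hneg : ∃ g, a g p = -p) : Tetra a := by
  set O : Set V3 := {v | ∃ g, a g p = v} with hOdef
  have hOfin : O.Finite := Set.finite_range fun g => a g p
  have hpO : p ∈ O := ⟨1, h.one p⟩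
  have hmul : ∀ (k : Γ) (v : V3), v ∈ O → a k v ∈ O := by
    rintro k v ⟨g, rfl⟩
    exact ⟨k * g, h.mul k g p⟩
  have hOneg : ∀ v ∈ O, -v ∈ O := by
    rintro v ⟨g, rfl⟩
    obtain ⟨k, hk⟩ := hneg
    exact ⟨g * k, by rw [h.mul, hk, map_neg]⟩
  have hunit : ∀ v ∈ O, v ⬝ᵥ v = 1 := by
    rintro v ⟨g, rfl⟩
    rw [h.dot, hp]
  have hpn : p ≠ -p := ne_neg_self hp
  have hsub : ({p, -p} : Set V3) ⊆ O := by
    intro v hv
    rcases hv with rfl | rfl
    · exact hpO
    · exact hOneg p hpO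
  have h4 : (O \ {p, -p}).ncard = 4 := by
    have h1 := Set.ncard_diff_add_ncard_of_subset hsub hOfin
    rw [Set.ncard_pair hpn, hO] at h1
    omega
  -- the stabiliser of `p` is transitive on the other points
  have hr : ∀ q ∈ O, q ≠ p → q ≠ -p → ∃ r, a r p = p ∧ a r q = -q := by
    intro q hq hqp hqn
    have hmaps : (fun t => a t q) '' {t | a t p = p} ⊆ O \ {p, -p} := by
      rintro v ⟨t, ht, rfl⟩
      refine ⟨hmul t q hq, ?_⟩
      have ht' : a t p = p := ht
      rintro (h1 | h1)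
      · have h1' : a t q = p := h1
        rw [← ht'] at h1'
        apply hqp
        have := congrArg (a t⁻¹) h1'
        rwa [h.inv_left, h.inv_left] at this
      · have h1' : a t q = -p := h1
        have h2 : a t q = a t (-p) := by rw [map_neg, ht', h1']
        apply hqn
        have := congrArg (a t⁻¹) h2
        rwa [h.inv_left, h.inv_left] at this
    have hinj : Set.InjOn (fun t => a t q) {t | a t p = p} := by
      intro t ht t' ht' he
      have he' : a t q = a t' q := he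
      have h1 : a (t'⁻¹ * t) q = q := by rw [h.mul, he', h.inv_left]
      have h2 : a (t'⁻¹ * t) p = p := by
        rw [h.mul, show a t p = p from ht]
        nth_rewrite 1 [← show a t' p = p from ht']
        rw [h.inv_left]
      by_cases h3 : t'⁻¹ * t = 1
      · exact (inv_mul_eq_one.1 h3).symm
      · rcases h.unique h3 hp (hunit q hq) h2 h1 with h5 | h5
        · exact absurd h5 hqp
        · exact absurd h5 hqn
    have hcard : ((fun t => a t q) '' {t | a t p = p}).ncard = 4 := by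
      rw [Set.ncard_image_of_injOn hinj, hst]
    have heq : (fun t => a t q) '' {t | a t p = p} = O \ {p, -p} :=
      Set.eq_of_subset_of_ncard_le hmaps (by rw [hcard, h4]) (hOfin.subset Set.diff_subset)
    have hmem : -q ∈ O \ {p, -p} := by
      refine ⟨hOneg q hq, ?_⟩
      rintro (h1 | h1)
      · exact hqn (by rw [← show -q = p from h1, neg_neg])
      · exact hqp (neg_injective h1)
    rw [← heq] at hmem
    obtain ⟨r, hr1, hr2⟩ := hmem
    exact ⟨r, hr1, hr2⟩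
  have hperp : ∀ q ∈ O, q ≠ p → q ≠ -p → p ⬝ᵥ q = 0 ∧ ∃ s, Half a s p := by
    intro q hq hqp hqn
    obtain ⟨r, rp, rq⟩ := hr q hq hqp hqn
    obtain ⟨w, hqw, Hr⟩ := h.half_of_neg (hunit q hq) rq
    have hwq : w ⬝ᵥ q = 0 := by rw [dotProduct_comm]; exact hqw
    have hr1 : r ≠ 1 := Hr.ne_one h (hunit q hq) hwq
    have hrr : r * r = 1 := Hr.sq h (hunit q hq) hwq
    refine ⟨?_, r, h.half_of_sq hr1 hrr hp rp⟩
    rcases h.unique hr1 Hr.unit hp Hr.fix rp with h5 | h5
    · rw [h5]; exact hwq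
    · rw [h5, neg_dotProduct, hwq, neg_zero]
  -- a second point
  obtain ⟨w, hw, hwd⟩ : ∃ w ∈ O, w ∉ ({p, -p} : Set V3) := by
    have hne : (O \ {p, -p}).Nonempty := by
      rw [← Set.ncard_pos (hOfin.subset Set.diff_subset), h4]; norm_num
    obtain ⟨w, hw1, hw2⟩ := hne
    exact ⟨w, hw1, hw2⟩
  have hwp1 : w ≠ p := fun he => hwd (Or.inl he)
  have hwp2 : w ≠ -p := fun he => hwd (Or.inr he)
  obtain ⟨hpw, s, hs⟩ := hperp w hw hwp1 hwp2
  have hww := hunit w hw
  have hwn : w ≠ -w := ne_neg_self hww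
  set u := p ⨯₃ w with hu
  have huu : u ⬝ᵥ u = 1 := cross_unit hp hww hpw
  have hpu : p ⬝ᵥ u = 0 := dot_self_cross p w
  have hwu : w ⬝ᵥ u = 0 := dot_cross_self p w
  -- points perpendicular to `p` and `w`
  have htri : ∀ x : V3, x ⬝ᵥ x = 1 → p ⬝ᵥ x = 0 → w ⬝ᵥ x = 0 → x = u ∨ x = -u := by
    intro x hx h1 h2
    have hd := decomp hp hww hpw x
    rw [h1, h2, zero_smul, zero_smul, zero_add, zero_add] at hd
    exact eq_or_neg_of_decomp hx huu hd
  have htri' : ∀ x : V3, x ⬝ᵥ x = 1 → p ⬝ᵥ x = 0 → u ⬝ᵥ x = 0 → x = w ∨ x = -w := by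
    intro x hx h1 h2
    have hd := decomp hp hww hpw x
    rw [h1, h2, zero_smul, zero_smul, zero_add, add_zero] at hd
    exact eq_or_neg_of_decomp hx hww hd
  -- the same for the point `w`
  obtain ⟨k, hk⟩ := hw
  have hperpw : ∀ x ∈ O, x ≠ w → x ≠ -w → w ⬝ᵥ x = 0 := by
    intro x hx h1 h2
    have h3 := hperp (a k⁻¹ x) (hmul _ _ hx) (fun he => h1 (by
      have := congrArg (a k) he
      rwa [h.inv_right, hk] at this)) (fun he => h2 (by
      have := congrArg (a k) he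
      rwa [h.inv_right, map_neg, hk] at this))
    have h5 := h3.1
    rw [← h.dot k, hk, h.inv_right] at h5
    exact h5
  have huO : u ∈ O := by
    have hsub2 : ({w, -w} : Set V3) ⊆ O \ {p, -p} := by
      intro v hv
      rcases hv with rfl | rfl
      · exact ⟨⟨k, hk⟩, hwd⟩
      · refine ⟨hOneg w ⟨k, hk⟩, ?_⟩
        rintro (h1 | h1)
        · exact hwp2 (by rw [← show -w = p from h1, neg_neg])
        · exact hwp1 (neg_injective h1)
    have h5 := Set.ncard_diff_add_ncard_of_subset hsub2 (hOfin.subset Set.diff_subset)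
    rw [Set.ncard_pair hwn, h4] at h5
    have hne : ((O \ {p, -p}) \ {w, -w}).Nonempty := by
      rw [← Set.ncard_pos ((hOfin.subset Set.diff_subset).subset Set.diff_subset)]; omega
    obtain ⟨z, ⟨hzO, hz1⟩, hz2⟩ := hne
    have h6 := (hperp z hzO (fun he => hz1 (Or.inl he)) (fun he => hz1 (Or.inr he))).1
    have h7 := hperpw z hzO (fun he => hz2 (Or.inl he)) (fun he => hz2 (Or.inr he))
    rcases htri z (hunit z hzO) h6 h7 with h8 | h8
    · rw [← h8]; exact hzO
    · have : u = -z := by rw [h8, neg_neg]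
      rw [this]; exact hOneg z hzO
  obtain ⟨k', hk'⟩ := huO
  have hgw : a k w = p ∨ a k w = -p ∨ a k w = u ∨ a k w = -u := by
    have hx : a k w ∈ O := hmul k w ⟨k, hk⟩
    by_cases h1 : a k w = p
    · exact Or.inl h1
    by_cases h2 : a k w = -p
    · exact Or.inr (Or.inl h2)
    have h3 := (hperp _ hx h1 h2).1
    have h5 : w ⬝ᵥ a k w = 0 := by
      nth_rewrite 1 [← hk]
      rw [h.dot, hpw]
    exact Or.inr (Or.inr (htri _ (hunit _ hx) h3 h5))
  have hku : a k' u = p ∨ a k' u = -p ∨ a k' u = w ∨ a k' u = -w := by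
    have hx : a k' u ∈ O := hmul k' u ⟨k', hk'⟩
    by_cases h1 : a k' u = p
    · exact Or.inl h1
    by_cases h2 : a k' u = -p
    · exact Or.inr (Or.inl h2)
    have h3 := (hperp _ hx h1 h2).1
    have h5 : u ⬝ᵥ a k' u = 0 := by
      nth_rewrite 1 [← hk']
      rw [h.dot, hpu]
    exact Or.inr (Or.inr (htri' _ (hunit _ hx) h3 h5))
  exact h.tetra_of_frame hww hpw hs hk hgw hk' hku

end Pool.Agent.Lib.MP_5e7226_co.TG
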