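import Pool.Agent.Lib.MP_5e7226_co.TG.Rot

set_option autoImplicit false

/-! From two elements of the frame stabiliser to a 3-cycle of the axes. -/

namespace Pool.Agent.Lib.MP_5e7226_co.TG

open Matrix

variable {Γ : Type*} [Group Γ] {a : Γ → V3 →ₗ[ℝ] V3}

/-- A half-turn and a 3-cycle: the rotations of a tetrahedron. -/
def Tetra (a : Γ → V3 →ₗ[ℝ] V3) : Prop :=
  ∃ p : V3, ∃ s c : Γ, Half a s p ∧ p ⬝ᵥ a c p = 0 ∧ p ⬝ᵥ a c (a c p) = 0 ∧ a c (a c (a c p)) = p

theorem cross_right {p w : V3} (hw : w ⬝ᵥ w = 1) (hpw : p ⬝ᵥ w = 0) :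
    w ⨯₃ (p ⨯₃ w) = p := by
  rw [cross_cross_eq_smul_sub_smul', hw, hpw]; simp

theorem cross_left {p w : V3} (hp : p ⬝ᵥ p = 1) (hpw : p ⬝ᵥ w = 0) :
    (p ⨯₃ w) ⨯₃ p = w := by
  rw [cross_cross_eq_smul_sub_smul, hp, dotProduct_comm w p, hpw]; simp

/-- `h` maps `p` to `w` and permutes the three axes, `k` maps `p` to `p ⨯₃ w` and permutes them. -/
theorem Act.tetra_of_frame (h : Act a) {p w : V3} (hw : w ⬝ᵥ w = 1) (hpw : p ⬝ᵥ w = 0) {s : Γ}
    (hs : Half a s p) {g k : Γ} (gp : a g p = w)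
    (gw : a g w = p ∨ a g w = -p ∨ a g w = p ⨯₃ w ∨ a g w = -(p ⨯₃ w))
    (kp : a k p = p ⨯₃ w)
    (ku : a k (p ⨯₃ w) = p ∨ a k (p ⨯₃ w) = -p ∨ a k (p ⨯₃ w) = w ∨ a k (p ⨯₃ w) = -w) :
    Tetra a := by
  have hp := hs.unit
  have hpu : p ⬝ᵥ (p ⨯₃ w) = 0 := dot_self_cross p w
  have e1 : w ⨯₃ (p ⨯₃ w) = p := cross_right hw hpw
  have e2 : (p ⨯₃ w) ⨯₃ p = w := cross_left hp hpw
  have e3 : p ⨯₃ (p ⨯₃ w) = -w := by rw [← cross_anticomm (p ⨯₃ w) p, e2]
  -- the image of the third vector under `g`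
  have g3 : ∀ y, a g w = y → a g (p ⨯₃ w) = w ⨯₃ y := fun y hy => by rw [h.cross, gp, hy]
  have k3 : ∀ y, a k (p ⨯₃ w) = y → a k w = y ⨯₃ (p ⨯₃ w) := fun y hy => by
    conv_lhs => rw [← e2]
    rw [h.cross, kp, hy]
  set u := p ⨯₃ w with hu
  -- first the cases in which `g` is a 3-cycle
  have caseg : ∀ ε : ℝ, ε * ε = 1 → a g w = ε • u → Tetra a := by
    intro ε hε hgw
    refine ⟨p, s, g, hs, by rw [gp, hpw], by rw [gp, hgw, dotProduct_smul, hpu, smul_zero], ?_⟩
    rw [gp, hgw, map_smul, g3 _ hgw, map_smul, e1, smul_smul, hε, one_smul]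
  have casek : ∀ ε : ℝ, ε * ε = 1 → a k u = ε • w → Tetra a := by
    intro ε hε hku
    refine ⟨p, s, k, hs, by rw [kp, hpu], by rw [kp, hku, dotProduct_smul, hpw, smul_zero], ?_⟩
    rw [kp, hku, map_smul, k3 _ hku, LinearMap.map_smul₂, e1, smul_smul, hε, one_smul]
  have casegk : ∀ ε δ : ℝ, ε * ε = 1 → δ * δ = 1 → a g w = ε • p → a k u = δ • p → Tetra a := by
    intro ε δ hε hδ hgw hku
    have hg3 : a g u = -(ε • u) := by
      rw [g3 _ hgw, map_smul, hu, ← cross_anticomm p w, smul_neg]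
    have hk3 : a k w = -(δ • w) := by
      rw [k3 _ hku, LinearMap.map_smul₂, e3, smul_neg]
    have c1 : a (k * g) p = -(δ • w) := by rw [h.mul, gp, hk3]
    have c2 : a (k * g) w = ε • u := by rw [h.mul, hgw, map_smul, kp]
    have c3 : a (k * g) u = -((ε * δ) • p) := by
      rw [h.mul, hg3, map_neg, map_smul, hku, smul_smul]
    refine ⟨p, s, k * g, hs, ?_, ?_, ?_⟩
    · rw [c1, dotProduct_neg, dotProduct_smul, hpw]; simp
    · rw [c1, map_neg, map_smul, c2, dotProduct_neg, dotProduct_smul, dotProduct_smul, hpu]; simp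
    · rw [c1, map_neg, map_smul, c2, map_neg, map_smul, map_smul, c3]
      rw [smul_neg, smul_neg, neg_neg, smul_smul, smul_smul]
      have : δ * (ε * (ε * δ)) = 1 := by
        calc δ * (ε * (ε * δ)) = (ε * ε) * (δ * δ) := by ring
          _ = 1 := by rw [hε, hδ, one_mul]
      rw [show δ * ε * (ε * δ) = 1 by rw [← this]; ring, one_smul]
  rcases gw with hgw | hgw | hgw | hgw
  · rcases ku with hku | hku | hku | hku
    · exact casegk 1 1 (by norm_num) (by norm_num) (by rw [hgw, one_smul]) (by rw [hku, one_smul])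
    · exact casegk 1 (-1) (by norm_num) (by norm_num) (by rw [hgw, one_smul])
        (by rw [hku, neg_one_smul])
    · exact casek 1 (by norm_num) (by rw [hku, one_smul])
    · exact casek (-1) (by norm_num) (by rw [hku, neg_one_smul])
  · rcases ku with hku | hku | hku | hku
    · exact casegk (-1) 1 (by norm_num) (by norm_num) (by rw [hgw, neg_one_smul])
        (by rw [hku, one_smul])
    · exact casegk (-1) (-1) (by norm_num) (by norm_num) (by rw [hgw, neg_one_smul])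
        (by rw [hku, neg_one_smul])
    · exact casek 1 (by norm_num) (by rw [hku, one_smul])
    · exact casek (-1) (by norm_num) (by rw [hku, neg_one_smul])
  · exact caseg 1 (by norm_num) (by rw [hgw, one_smul])
  · exact caseg (-1) (by norm_num) (by rw [hgw, neg_one_smul])

end Pool.Agent.Lib.MP_5e7226_co.TG
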