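import Pool.Agent.Lib.MP_5e7226_co.TG.Core

set_option autoImplicit false

/-! The core theorem: a finite group of rotations without invariant line contains the rotations of a
tetrahedron. -/

namespace Pool.Agent.Lib.MP_5e7226_co.TG

open Matrix MulAction

variable {Γ : Type*} [Group Γ] {a : Γ → V3 →ₗ[ℝ] V3}

/-- The poles. -/
def Pole (a : Γ → V3 →ₗ[ℝ] V3) : Set V3 := {v | v ⬝ᵥ v = 1 ∧ ∃ g, g ≠ 1 ∧ a g v = v}

theorem pole_mul (h : Act a) (k : Γ) {v : V3} (hv : v ∈ Pole a) : a k v ∈ Pole a := by
  obtain ⟨h1, g, hg, gv⟩ := hv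
  refine ⟨by rw [h.dot, h1], k * g * k⁻¹, ?_, by rw [h.mul, h.mul, h.inv_left, gv]⟩
  intro he
  apply hg
  have : k⁻¹ * (k * g * k⁻¹) * k = k⁻¹ * 1 * k := by rw [he]
  simpa [mul_assoc] using this

/-- The action on the poles. -/
@[reducible] def poleAct (h : Act a) : MulAction Γ (Pole a) where
  smul k v := ⟨a k v, pole_mul h k v.2⟩
  one_smul v := Subtype.ext (h.one v)
  mul_smul k l v := Subtype.ext (h.mul k l v)

theorem pole_neg {v : V3} (hv : v ∈ Pole a) : -v ∈ Pole a := by
  obtain ⟨h1, g, hg, gv⟩ := hv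
  exact ⟨by rw [neg_dotProduct, dotProduct_neg, neg_neg, h1], g, hg, by rw [map_neg, gv]⟩

theorem unit_fix (h : Act a) (g : Γ) : ∃ p : V3, p ⬝ᵥ p = 1 ∧ a g p = p := by
  obtain ⟨v, hv, gv⟩ := h.fix g
  obtain ⟨c, _, hc⟩ := exists_unit hv
  exact ⟨c • v, hc, by rw [map_smul, gv]⟩

theorem pole_finite (h : Act a) [Finite Γ] : (Pole a).Finite := by
  choose p hp gp using unit_fix h
  refine (Set.finite_iUnion fun g : Γ => (Set.toFinite ({p g, -p g} : Set V3))).subset ?_
  rintro v ⟨h1, g, hg, gv⟩
  rw [Set.mem_iUnion]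
  refine ⟨g, ?_⟩
  rcases h.unique hg (hp g) h1 (gp g) gv with h2 | h2
  · exact Or.inl h2
  · exact Or.inr h2

theorem Act.tetra (h : Act a) [Finite Γ] : Tetra a := by
  letI := poleAct h
  haveI : Finite (Pole a) := (pole_finite h).to_subtype
  have hsm : ∀ (g : Γ) (x : Pole a), ((g • x : Pole a) : V3) = a g x := fun _ _ => rfl
  haveI : Nontrivial Γ := by
    by_contra hn
    rw [not_nontrivial_iff_subsingleton] at hn
    obtain ⟨g, hg⟩ := h.noline (fun _ => 1) (fun he => by simpa using congrFun he 0)
    apply hg 1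
    rw [show g = 1 from Subsingleton.elim _ _, h.one, one_smul]
  have hfix : ∀ g : Γ, g ≠ 1 → Nat.card (fixedBy (Pole a) g) = 2 := by
    intro g hg
    obtain ⟨p, hp, gp⟩ := unit_fix h g
    have hpP : p ∈ Pole a := ⟨hp, g, hg, gp⟩
    have hset : fixedBy (Pole a) g = {(⟨p, hpP⟩ : Pole a), ⟨-p, pole_neg hpP⟩} := by
      ext x
      rw [mem_fixedBy]
      constructor
      · intro hx
        have hx' : a g x = x := congrArg Subtype.val hx
        rcases h.unique hg hp x.2.1 gp hx' with h2 | h2
        · exact Or.inl (Subtype.ext h2)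
        · exact Or.inr (Subtype.ext h2)
      · rintro (rfl | hx)
        · exact Subtype.ext gp
        · rw [Set.mem_singleton_iff] at hx
          rw [hx]
          exact Subtype.ext (by rw [hsm, map_neg, gp])
    rw [Nat.card_coe_set_eq, hset, Set.ncard_pair]
    intro he
    exact ne_neg_self hp (congrArg Subtype.val he)
  have hstab : ∀ x : Pole a, 2 ≤ Nat.card (stabilizer Γ x) := by
    intro x
    obtain ⟨h1, g, hg, gx⟩ := x.2
    have hgs : g ∈ stabilizer Γ x := Subtype.ext gx
    haveI : Nontrivial (stabilizer Γ x) := ⟨⟨⟨g, hgs⟩, 1, fun he => hg (congrArg Subtype.val he)⟩⟩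
    exact Finite.one_lt_card
  have horb : ∀ x : Pole a, 3 ≤ Nat.card (orbit Γ x) := by
    intro x
    by_contra hlt
    have hx1 := x.2.1
    obtain ⟨g, hg⟩ := h.noline (x : V3) (ne_zero_of_unit hx1)
    have hq1 : a g x ≠ (x : V3) := fun he => hg 1 (by rw [he, one_smul])
    have hq2 : a g x ≠ -(x : V3) := fun he => hg (-1) (by rw [he, neg_one_smul])
    have hpair : ({x, g • x} : Set (Pole a)) ⊆ orbit Γ x := by
      intro y hy
      rcases hy with rfl | rfl
      · exact mem_orbit_self _
      · exact mem_orbit _ _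
    have hne : x ≠ g • x := fun he => hq1 (congrArg Subtype.val he).symm
    have heq : ({x, g • x} : Set (Pole a)) = orbit Γ x := by
      refine Set.eq_of_subset_of_ncard_le hpair ?_ (Set.toFinite _)
      rw [Set.ncard_pair hne, ← Nat.card_coe_set_eq]
      omega
    have hsum : (x : V3) + a g x ≠ 0 := fun he => hq2 (eq_neg_of_add_eq_zero_right he)
    obtain ⟨k, hk⟩ := h.noline _ hsum
    apply hk 1
    rw [one_smul, map_add]
    have m1 : k • x ∈ ({x, g • x} : Set (Pole a)) := by rw [heq]; exact mem_orbit _ _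
    have m2 : k • (g • x) ∈ ({x, g • x} : Set (Pole a)) := by
      rw [heq, ← mul_smul]; exact mem_orbit _ _
    have hne2 : k • x ≠ k • (g • x) := fun he => hne (MulAction.injective k he)
    rcases m1 with e1 | e1
    · rcases m2 with e2 | e2
      · exact absurd (e1.trans e2.symm) hne2
      · have f1 : a k x = x := congrArg Subtype.val e1
        have f2 : a k (a g x) = a g x := congrArg Subtype.val e2
        rw [f1, f2]
    · rcases m2 with e2 | e2
      · have f1 : a k x = a g x := congrArg Subtype.val e1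
        have f2 : a k (a g x) = x := congrArg Subtype.val e2
        rw [f1, f2, add_comm]
      · exact absurd (Eq.trans (show k • x = g • x from e1) (show g • x = k • (g • x) from
          (show k • (g • x) = g • x from e2).symm)) hne2
  have hstab_neg : ∀ p : Pole a, stabilizer Γ (⟨-p, pole_neg p.2⟩ : Pole a) = stabilizer Γ p := by
    intro p
    ext t
    constructor
    · intro ht
      have h1 : a t (-(p : V3)) = -(p : V3) := congrArg Subtype.val ht
      rw [map_neg, neg_inj] at h1
      exact Subtype.ext h1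
    · intro ht
      have h1 : a t (p : V3) = (p : V3) := congrArg Subtype.val ht
      exact Subtype.ext (by rw [hsm, map_neg, h1])
  rcases RG.Tet.count hfix hstab horb with ⟨p, hcard, hall⟩ | ⟨p, hcard, ho, hall⟩
  · -- case (a)
    obtain ⟨h1, s, hs1, hsp⟩ := p.2
    have hsS : s ∈ stabilizer Γ p := Subtype.ext hsp
    have hst : ∀ t, a t p = (p : V3) → t = 1 ∨ t = s := by
      intro t ht
      have htS : t ∈ stabilizer Γ p := Subtype.ext ht
      rw [Nat.card_eq_two_iff] at hcard
      obtain ⟨x, y, hxy, huniv⟩ := hcard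
      have hm : ∀ z : stabilizer Γ p, z = x ∨ z = y := fun z => by
        have : z ∈ (Set.univ : Set (stabilizer Γ p)) := Set.mem_univ z
        rw [← huniv] at this
        exact this
      rcases hm 1 with e1 | e1 <;> rcases hm ⟨s, hsS⟩ with e2 | e2 <;> rcases hm ⟨t, htS⟩ with e3 | e3
      · exact Or.inl (congrArg Subtype.val (e3.trans e1.symm))
      · exact absurd (congrArg Subtype.val (e2.trans e1.symm)) hs1
      · exact Or.inl (congrArg Subtype.val (e3.trans e1.symm))
      · exact Or.inr (congrArg Subtype.val (e3.trans e2.symm))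
      · exact Or.inr (congrArg Subtype.val (e3.trans e2.symm))
      · exact Or.inl (congrArg Subtype.val (e3.trans e1.symm))
      · exact absurd (congrArg Subtype.val (e2.trans e1.symm)) hs1
      · exact Or.inl (congrArg Subtype.val (e3.trans e1.symm))
    have hss : s * s = 1 := by
      have h2 : a (s * s) p = (p : V3) := by rw [h.mul, hsp, hsp]
      rcases hst _ h2 with h3 | h3
      · exact h3
      · exact absurd (mul_eq_left.1 h3) hs1
    have Hs : Half a s p := h.half_of_sq hs1 hss h1 hsp
    refine h.case_a Hs hst ?_ ?_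
    · rintro w hw ⟨g, hg1, hgg, gw⟩
      have hwP : w ∈ Pole a := ⟨hw, g, hg1, gw⟩
      have hgS : g ∈ stabilizer Γ (⟨w, hwP⟩ : Pole a) := Subtype.ext gw
      have heven : Even (Nat.card (stabilizer Γ (⟨w, hwP⟩ : Pole a))) := by
        rw [even_iff_two_dvd]
        have ho2 : orderOf (⟨g, hgS⟩ : stabilizer Γ (⟨w, hwP⟩ : Pole a)) = 2 := by
          rw [orderOf_eq_prime_iff]
          refine ⟨?_, fun he => hg1 (congrArg Subtype.val he)⟩
          rw [pow_two]
          exact Subtype.ext hgg
        rw [← ho2]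
        exact orderOf_dvd_natCard _
      obtain ⟨k, hk⟩ := hall _ heven
      exact ⟨k, congrArg Subtype.val hk⟩
    · have heven : Even (Nat.card (stabilizer Γ (⟨-p, pole_neg p.2⟩ : Pole a))) := by
        rw [hstab_neg, hcard]; exact even_two
      obtain ⟨k, hk⟩ := hall _ heven
      exact ⟨k, congrArg Subtype.val hk⟩
  · -- case (b)
    refine h.case_b p.2.1 ?_ ?_ ?_
    · rw [← hcard, ← Nat.card_coe_set_eq]
      refine Nat.card_congr (Equiv.setCongr ?_)
      ext t
      constructor
      · intro ht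
        exact Subtype.ext ht
      · intro ht
        exact congrArg Subtype.val ht
    · have himg : {v : V3 | ∃ g, a g p = v} = Subtype.val '' (orbit Γ p) := by
        ext v
        constructor
        · rintro ⟨g, rfl⟩
          exact ⟨g • p, mem_orbit _ _, rfl⟩
        · rintro ⟨x, ⟨g, rfl⟩, rfl⟩
          exact ⟨g, rfl⟩
      rw [himg, Set.ncard_image_of_injective _ Subtype.val_injective, ← Nat.card_coe_set_eq]
      exact ho
    · have h4 : Nat.card (stabilizer Γ (⟨-p, pole_neg p.2⟩ : Pole a)) = 4 := by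
        rw [hstab_neg, hcard]
      obtain ⟨k, hk⟩ := hall _ h4
      exact ⟨k, congrArg Subtype.val hk⟩

end Pool.Agent.Lib.MP_5e7226_co.TG
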