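import Mathlib

set_option autoImplicit false

/-! Finite groups of rotations of `ℝ³`: fixed vectors and half-turns. -/

namespace Pool.Agent.Lib.MP_5e7226_co.TG

open Matrix

/-- The space. -/
abbrev V3 := Fin 3 → ℝ

/-- A group of rotations of `ℝ³` without invariant line. -/
structure Act {Γ : Type*} [Group Γ] (a : Γ → V3 →ₗ[ℝ] V3) : Prop where
  one : ∀ v, a 1 v = v
  mul : ∀ g h v, a (g * h) v = a g (a h v)
  dot : ∀ g x y, a g x ⬝ᵥ a g y = x ⬝ᵥ y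
  cross : ∀ g x y, a g (x ⨯₃ y) = a g x ⨯₃ a g y
  fix : ∀ g, ∃ v, v ≠ 0 ∧ a g v = v
  faithful : ∀ g, (∀ v, a g v = v) → g = 1
  noline : ∀ v, v ≠ 0 → ∃ g, ∀ c : ℝ, a g v ≠ c • v

theorem dot_pos {v : V3} (h : v ≠ 0) : 0 < v ⬝ᵥ v := by
  have h0 : 0 ≤ v ⬝ᵥ v := Finset.sum_nonneg fun i _ => mul_self_nonneg (v i)
  refine lt_of_le_of_ne h0 fun he => h ?_
  exact dotProduct_self_eq_zero.1 he.symm

theorem ne_zero_of_unit {v : V3} (h : v ⬝ᵥ v = 1) : v ≠ 0 := by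
  rintro rfl
  simp at h

/-- Normalising a vector. -/
theorem exists_unit {v : V3} (h : v ≠ 0) : ∃ r : ℝ, r ≠ 0 ∧ (r • v) ⬝ᵥ (r • v) = 1 := by
  have hp := dot_pos h
  refine ⟨(Real.sqrt (v ⬝ᵥ v))⁻¹, inv_ne_zero (Real.sqrt_ne_zero'.2 hp), ?_⟩
  rw [smul_dotProduct, dotProduct_smul, smul_eq_mul, smul_eq_mul, ← mul_assoc, ← mul_inv,
    Real.mul_self_sqrt hp.le, inv_mul_cancel₀ hp.ne']

theorem cross_unit {p w : V3} (hp : p ⬝ᵥ p = 1) (hw : w ⬝ᵥ w = 1) (hpw : p ⬝ᵥ w = 0) :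
    (p ⨯₃ w) ⬝ᵥ (p ⨯₃ w) = 1 := by
  rw [cross_dot_cross, hp, hw, hpw]; ring

/-- An orthonormal pair and its cross product span. -/
theorem decomp {p w : V3} (hp : p ⬝ᵥ p = 1) (hw : w ⬝ᵥ w = 1) (hpw : p ⬝ᵥ w = 0) (x : V3) :
    x = (p ⬝ᵥ x) • p + (w ⬝ᵥ x) • w + ((p ⨯₃ w) ⬝ᵥ x) • (p ⨯₃ w) := by
  have hu := cross_unit hp hw hpw
  have hwp : w ⬝ᵥ p = 0 := by rw [dotProduct_comm]; exact hpw
  set u := p ⨯₃ w with hudef
  have hpu : p ⬝ᵥ u = 0 := dot_self_cross p w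
  have hwu : w ⬝ᵥ u = 0 := dot_cross_self p w
  have hup : u ⬝ᵥ p = 0 := by rw [dotProduct_comm]; exact hpu
  have huw : u ⬝ᵥ w = 0 := by rw [dotProduct_comm]; exact hwu
  set r := x - ((p ⬝ᵥ x) • p + (w ⬝ᵥ x) • w + (u ⬝ᵥ x) • u) with hr
  have h1 : p ⬝ᵥ r = 0 := by
    rw [hr, dotProduct_sub, dotProduct_add, dotProduct_add, dotProduct_smul, dotProduct_smul,
      dotProduct_smul, hp, hpw, hpu]
    simp
  have h2 : w ⬝ᵥ r = 0 := by
    rw [hr, dotProduct_sub, dotProduct_add, dotProduct_add, dotProduct_smul, dotProduct_smul,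
      dotProduct_smul, hw, hwp, hwu]
    simp
  have h3 : u ⬝ᵥ r = 0 := by
    rw [hr, dotProduct_sub, dotProduct_add, dotProduct_add, dotProduct_smul, dotProduct_smul,
      dotProduct_smul, hu, hup, huw]
    simp
  have h4 : r ⨯₃ u = 0 := by
    rw [hudef, cross_cross_eq_smul_sub_smul', dotProduct_comm r w, h2, h1]
    simp
  have h5 := cross_dot_cross r u r u
  rw [h4, hu, h3, zero_dotProduct] at h5
  have h6 : r ⬝ᵥ r = 0 := by linarith
  have h7 : r = 0 := dotProduct_self_eq_zero.1 h6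
  rw [hr, sub_eq_zero] at h7
  exact h7

variable {Γ : Type*} [Group Γ] {a : Γ → V3 →ₗ[ℝ] V3}

theorem Act.inv_left (h : Act a) (g : Γ) (v : V3) : a g⁻¹ (a g v) = v := by
  rw [← h.mul, inv_mul_cancel, h.one]

theorem Act.inv_right (h : Act a) (g : Γ) (v : V3) : a g (a g⁻¹ v) = v := by
  rw [← h.mul, mul_inv_cancel, h.one]

theorem Act.ext3 (h : Act a) {g : Γ} {p w : V3} (hp : p ⬝ᵥ p = 1) (hw : w ⬝ᵥ w = 1)
    (hpw : p ⬝ᵥ w = 0) (gp : a g p = p) (gw : a g w = w) : g = 1 := by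
  refine h.faithful g fun v => ?_
  have hv := decomp hp hw hpw v
  have hc : a g (p ⨯₃ w) = p ⨯₃ w := by rw [h.cross, gp, gw]
  rw [hv, map_add, map_add, map_smul, map_smul, map_smul, gp, gw, hc]

/-- A nontrivial rotation has only one axis. -/
theorem Act.unique (h : Act a) {g : Γ} (hg : g ≠ 1) {p q : V3} (hp : p ⬝ᵥ p = 1) (hq : q ⬝ᵥ q = 1)
    (gp : a g p = p) (gq : a g q = q) : q = p ∨ q = -p := by
  set r := q - (p ⬝ᵥ q) • p with hr
  have hpr : p ⬝ᵥ r = 0 := by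
    rw [hr, dotProduct_sub, dotProduct_smul, hp]; simp
  have gr : a g r = r := by rw [hr, map_sub, map_smul, gp, gq]
  by_cases h0 : r = 0
  · have hq' : q = (p ⬝ᵥ q) • p := by rw [hr, sub_eq_zero] at h0; exact h0
    have h1 : (p ⬝ᵥ q) * (p ⬝ᵥ q) = 1 := by
      have h2 : q ⬝ᵥ q = (p ⬝ᵥ q) * (p ⬝ᵥ q) := by
        conv_lhs => rw [hq']
        rw [smul_dotProduct, dotProduct_smul, hp]; simp
      rw [← h2, hq]
    rcases mul_self_eq_one_iff.1 h1 with h2 | h2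
    · left; rw [hq', h2, one_smul]
    · right; rw [hq', h2, neg_one_smul]
  · obtain ⟨c, _, hc⟩ := exists_unit h0
    exact absurd (h.ext3 hp hc (by rw [dotProduct_smul, hpr, smul_zero]) gp
      (by rw [map_smul, gr])) hg

/-- `g` is the half-turn about `w`. -/
structure Half (a : Γ → V3 →ₗ[ℝ] V3) (g : Γ) (w : V3) : Prop where
  unit : w ⬝ᵥ w = 1
  fix : a g w = w
  neg : ∀ x, w ⬝ᵥ x = 0 → a g x = -x

/-- A rotation which maps a unit vector to its opposite is a half-turn. -/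
theorem Act.half_of_neg (h : Act a) {g : Γ} {p : V3} (hp : p ⬝ᵥ p = 1) (gp : a g p = -p) :
    ∃ w, p ⬝ᵥ w = 0 ∧ Half a g w := by
  obtain ⟨v, hv, gv⟩ := h.fix g
  obtain ⟨c, _, hc⟩ := exists_unit hv
  set w := c • v with hw
  have gw : a g w = w := by rw [hw, map_smul, gv]
  have hpw : p ⬝ᵥ w = 0 := by
    have h1 := h.dot g p w
    rw [gp, gw, neg_dotProduct] at h1
    linarith
  have hwp : w ⬝ᵥ p = 0 := by rw [dotProduct_comm]; exact hpw
  refine ⟨w, hpw, hc, gw, fun x hx => ?_⟩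
  have hd := decomp hc hp hwp x
  have hcr : a g (w ⨯₃ p) = -(w ⨯₃ p) := by rw [h.cross, gp, gw, map_neg]
  rw [hx, zero_smul, zero_add] at hd
  rw [hd, map_add, map_smul, map_smul, gp, hcr]
  simp only [smul_neg, neg_add]

/-- A rotation of order two is a half-turn. -/
theorem Act.half_of_sq (h : Act a) {g : Γ} (hg : g ≠ 1) (h2 : g * g = 1) {p : V3}
    (hp : p ⬝ᵥ p = 1) (gp : a g p = p) : Half a g p := by
  refine ⟨hp, gp, fun x hx => ?_⟩
  set y := x + a g x with hy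
  have gy : a g y = y := by
    rw [hy, map_add, ← h.mul, h2, h.one, add_comm]
  have hpy : p ⬝ᵥ y = 0 := by
    have h1 := h.dot g p x
    rw [gp] at h1
    rw [hy, dotProduct_add, h1, hx, add_zero]
  by_cases h0 : y = 0
  · exact eq_neg_of_add_eq_zero_right (by rw [← hy]; exact h0)
  · obtain ⟨c, _, hc⟩ := exists_unit h0
    exact absurd (h.ext3 hp hc (by rw [dotProduct_smul, hpy, smul_zero]) gp
      (by rw [map_smul, gy])) hg

theorem Half.ne_one (h : Act a) {g : Γ} {w p : V3} (H : Half a g w) (hp : p ⬝ᵥ p = 1)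
    (hwp : w ⬝ᵥ p = 0) : g ≠ 1 := by
  rintro rfl
  have h1 := H.neg p hwp
  rw [h.one] at h1
  have h2 : p = 0 := by
    have : p + p = 0 := by nth_rewrite 1 [h1]; simp
    have h3 : (2 : ℝ) • p = 0 := by rw [two_smul]; exact this
    exact (smul_eq_zero.1 h3).resolve_left two_ne_zero
  exact ne_zero_of_unit hp h2

theorem Half.sq (h : Act a) {g : Γ} {w p : V3} (H : Half a g w) (hp : p ⬝ᵥ p = 1)
    (hwp : w ⬝ᵥ p = 0) : g * g = 1 := by
  refine h.ext3 H.unit hp hwp ?_ ?_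
  · rw [h.mul, H.fix, H.fix]
  · rw [h.mul, H.neg p hwp, map_neg, H.neg p hwp, neg_neg]

theorem Half.conj (h : Act a) {g : Γ} {w : V3} (H : Half a g w) (k : Γ) :
    Half a (k * g * k⁻¹) (a k w) := by
  refine ⟨by rw [h.dot]; exact H.unit, ?_, fun x hx => ?_⟩
  · rw [h.mul, h.mul, h.inv_left, H.fix]
  · have h1 : w ⬝ᵥ a k⁻¹ x = 0 := by
      have h2 := h.dot k w (a k⁻¹ x)
      rw [h.inv_right, hx] at h2
      exact h2.symm
    rw [h.mul, h.mul, H.neg _ h1, map_neg, h.inv_right]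

end Pool.Agent.Lib.MP_5e7226_co.TG
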